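import Pool.Agent.FG.Main6

/-! # Lower bounds of the order `√q` for `L(q)`, `q` not prime

`LL k` is `liminf N_q(g) / g` for the field `k` with `q` elements (`Pool/Agent/FF/Defs.lean`). -/

set_option autoImplicit false

namespace Pool.Agent.Results.MP_e9b03e_nt.EveryNonPrime

open Pool.Agent.FF

/-- Let `q = p ^ n`, `p` prime, `n ≥ 2`, let `s = 2 / (1 / (p ^ ⌊n/2⌋ - 1) + 1 / (p ^ ⌈n/2⌉ - 1))`
(`= √q - 1` if `q` is a square), and `κ = 1` if `q` is even, `κ = 2` if `q` is odd. Then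
`L(q) ≥ 2 s / (2 + (s + κ) / log₂ q)`, and `L(q) ≥ (s + 2) / (2 + κ / log₂ q)` if `q ≥ 49`, and
`s + 2 ≥ 2 √p / (p + 1) * √q`. -/
theorem result : ∀ (k : Type) [Field k] (p n : ℕ) (s κ : ℝ), p.Prime → 2 ≤ n →
    Nat.card k = p ^ n →
    s = 2 / (1 / ((p : ℝ) ^ (n / 2) - 1) + 1 / ((p : ℝ) ^ ((n + 1) / 2) - 1)) →
    κ = (if Even p then 1 else 2) →
    ENNReal.ofReal (2 * s / (2 + (s + κ) / Real.logb 2 (Nat.card k))) ≤ LL k ∧
    (49 ≤ Nat.card k →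
      ENNReal.ofReal ((s + 2) / (2 + κ / Real.logb 2 (Nat.card k))) ≤ LL k) ∧
    2 * √p / (p + 1) * √(Nat.card k : ℝ) ≤ s + 2 :=
  fun _ _ _ _ _ _ hp hn hk hs hκ => Jl.LL_nonprime hp hn hk hs hκ

end Pool.Agent.Results.MP_e9b03e_nt.EveryNonPrime
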