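import Pool.Agent.FE.NumC
import Pool.Agent.FF.MainE
import Pool.Agent.FG.NumC6

/-! # Lower bounds for `L(q)` for some small `q`

`LL k` is `liminf N_q(g) / g` for the field `k` with `q` elements (`Pool/Agent/FF/Defs.lean`). -/

set_option autoImplicit false

namespace Pool.Agent.Results.MP_e9b03e_nt.SmallPowers

open Pool.Agent.FF

/-- `L(25) ≥ 1217/500`, `L(32) ≥ 277/100`, `L(49) ≥ 3523/1000`, `L(64) ≥ 849/200`,
`L(81) ≥ 4523/1000`, `L(121) ≥ 1091/200`, `L(125) ≥ 421/100`, `L(128) ≥ 1387/250`,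
`L(169) ≥ 6337/1000`, `L(243) ≥ 3301/500`, `L(256) ≥ 33/4`, `L(289) ≥ 819/100`,
`L(343) ≥ 154/25`, `L(361) ≥ 4559/500`, `L(512) ≥ 266/25`, `L(1024) ≥ 1581/100`,
`L(1331) ≥ 49/5`, `L(4096) ≥ 63/2`. -/
theorem result :
    (∀ (k : Type) [Field k], Nat.card k = 25 → ENNReal.ofReal (1217 / 500) ≤ LL k) ∧
    (∀ (k : Type) [Field k], Nat.card k = 32 → ENNReal.ofReal (277 / 100) ≤ LL k) ∧
    (∀ (k : Type) [Field k], Nat.card k = 49 → ENNReal.ofReal (3523 / 1000) ≤ LL k) ∧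
    (∀ (k : Type) [Field k], Nat.card k = 64 → ENNReal.ofReal (849 / 200) ≤ LL k) ∧
    (∀ (k : Type) [Field k], Nat.card k = 81 → ENNReal.ofReal (4523 / 1000) ≤ LL k) ∧
    (∀ (k : Type) [Field k], Nat.card k = 121 → ENNReal.ofReal (1091 / 200) ≤ LL k) ∧
    (∀ (k : Type) [Field k], Nat.card k = 125 → ENNReal.ofReal (421 / 100) ≤ LL k) ∧
    (∀ (k : Type) [Field k], Nat.card k = 128 → ENNReal.ofReal (1387 / 250) ≤ LL k) ∧
    (∀ (k : Type) [Field k], Nat.card k = 169 → ENNReal.ofReal (6337 / 1000) ≤ LL k) ∧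
    (∀ (k : Type) [Field k], Nat.card k = 243 → ENNReal.ofReal (3301 / 500) ≤ LL k) ∧
    (∀ (k : Type) [Field k], Nat.card k = 256 → ENNReal.ofReal (33 / 4) ≤ LL k) ∧
    (∀ (k : Type) [Field k], Nat.card k = 289 → ENNReal.ofReal (819 / 100) ≤ LL k) ∧
    (∀ (k : Type) [Field k], Nat.card k = 343 → ENNReal.ofReal (154 / 25) ≤ LL k) ∧
    (∀ (k : Type) [Field k], Nat.card k = 361 → ENNReal.ofReal (4559 / 500) ≤ LL k) ∧
    (∀ (k : Type) [Field k], Nat.card k = 512 → ENNReal.ofReal (266 / 25) ≤ LL k) ∧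
    (∀ (k : Type) [Field k], Nat.card k = 1024 → ENNReal.ofReal (1581 / 100) ≤ LL k) ∧
    (∀ (k : Type) [Field k], Nat.card k = 1331 → ENNReal.ofReal (49 / 5) ≤ LL k) ∧
    (∀ (k : Type) [Field k], Nat.card k = 4096 → ENNReal.ofReal (63 / 2) ≤ LL k) :=
  ⟨fun _ _ h => T4.L25 h, fun _ _ h => Jl.N6.L32 h, fun _ _ h => T4.L49 h,
    fun _ _ h => T4.L64 h, fun _ _ h => T4.L81 h, fun _ _ h => T4.L121 h,
    fun _ _ h => Rk.N5.L125 h, fun _ _ h => Jl.N6.L128 h, fun _ _ h => T4.L169 h,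
    fun _ _ h => Jl.N6.L243 h, fun _ _ h => LL_q256 h, fun _ _ h => T4.L289 h,
    fun _ _ h => Rk.N5.L343 h, fun _ _ h => T4.L361 h, fun _ _ h => Jl.N6.L512 h,
    fun _ _ h => T4.L1024 h, fun _ _ h => Jl.N6.L1331 h, fun _ _ h => LL_q4096 h⟩

end Pool.Agent.Results.MP_e9b03e_nt.SmallPowers
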